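import Mathlib

/-!
# Erdos problem 676 (MP_1626ca_nt): definitions

There are infinitely many `n` such that `p ≤ n mod p ^ 2` for all primes `p` with `p ^ 2 ≤ n`.
-/

set_option autoImplicit false

open Finset

namespace Pool.Agent.H817R5.EP

open Classical in
/-- `1` if `n mod q ^ 2 < a q` for all `q ∈ T`, otherwise `0`. -/
noncomputable def ind (a : ℕ → ℕ) (T : Finset ℕ) (n : ℕ) : ℝ :=
  if ∀ q ∈ T, n % q ^ 2 < a q then 1 else 0

/-- The density of the set `ind a T = 1`. -/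
noncomputable def den (a : ℕ → ℕ) (T : Finset ℕ) : ℝ := ∏ q ∈ T, (a q : ℝ) / (q : ℝ) ^ 2

/-- The correlation of two shifts of `ind a T`: average over a full period. -/
noncomputable def kap (a : ℕ → ℕ) (T : Finset ℕ) (r s : ℕ) : ℝ :=
  (∑ y ∈ range (∏ q ∈ T, q ^ 2), ind a T (y + r) * ind a T (y + s)) / ∏ q ∈ T, (q : ℝ) ^ 2

/-- Admissible data: `P` is a finite set of primes, at most `z`, and `1 ≤ a q ≤ 2 q` on `P`. -/
def Adm (a : ℕ → ℕ) (P : Finset ℕ) (z : ℕ) : Prop :=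
  ∀ q ∈ P, q.Prime ∧ q ≤ z ∧ 1 ≤ a q ∧ a q ≤ 2 * q

/-- The primes up to `z`. -/
def primesTo (z : ℕ) : Finset ℕ := (Icc 1 z).filter Nat.Prime

/-- `∏_{p ≤ z} (1 - 1/p)` -/
noncomputable def V (z : ℕ) : ℝ := ∏ p ∈ primesTo z, (1 - 1 / (p : ℝ))

open Classical in
/-- The `y ∈ [X, 2 X)` such that the window `[y, y + H)` is not hit by any prime `p > P` with
`p ^ 2 ≤ 3 X`. -/
noncomputable def Good (X P H : ℕ) : Finset ℕ :=
  (Ico X (2 * X)).filter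
    (fun y => ∀ p : ℕ, p.Prime → P < p → p ^ 2 ≤ 3 * X → ∀ j < H, p ≤ (y + j) % p ^ 2)

/-- The windows of length `X ^ (α - ε)` which are not hit by the primes `p > X ^ α` have lower
density at least `c`, for every `ε`. -/
def CC (α c : ℝ) : Prop := ∀ ε : ℝ, 0 < ε → ε < α → ∃ X1 : ℕ, ∀ X : ℕ, X1 ≤ X →
  c * X ≤ ((Good X ⌊(X : ℝ) ^ α⌋₊ ⌊(X : ℝ) ^ (α - ε)⌋₊).card : ℝ)

open Classical in
/-- The fundamental lemma of the sieve, level `K z ^ B`, with a sum of errors. -/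
def FLp (B K : ℕ) : Prop := ∀ z : ℕ, 2 ≤ z → ∀ (Ω : Finset ℕ) (w : ℕ → ℝ) (hit : ℕ → ℕ → Prop)
  (A : ℝ), (∀ m ∈ Ω, 0 ≤ w m) → 0 ≤ A →
  |∑ m ∈ Ω.filter (fun m => ∀ p ∈ primesTo z, ¬ hit p m), w m - A * V z| ≤
    1 / 2 * (A * V z) + K * (1 + Real.log z) *
      ∑ S ∈ (primesTo z).powerset.filter (fun S : Finset ℕ => ∏ p ∈ S, p ≤ K * z ^ B),
        |∑ m ∈ Ω.filter (fun m => ∀ p ∈ S, hit p m), w m - A * ∏ p ∈ S, 1 / (p : ℝ)|

end Pool.Agent.H817R5.EP
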