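import Mathlib
import Pool.Agent.H817R5.EP.Defs

/-!
# Erdos problem 676 (MP_1626ca_nt): statements of the tasks
-/

set_option autoImplicit false

open Finset

namespace Pool.Agent.H817R5.EP

/-- CRT: sums over a full period of products of local functions. -/
def St_CRT : Prop := ∀ (P : Finset ℕ) (f : ℕ → ℕ → ℝ), (∀ q ∈ P, q.Prime) →
  (∀ q ∈ P, ∀ n, f q (n % q ^ 2) = f q n) →
  ∑ y ∈ range (∏ q ∈ P, q ^ 2), ∏ q ∈ P, f q y = ∏ q ∈ P, ∑ y ∈ range (q ^ 2), f q y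

/-- PER: sums of periodic functions over intervals (general and nonnegative version). -/
def St_PER : Prop := ∀ (Q X0 X : ℕ) (F : ℕ → ℝ), 0 < Q → (∀ n, F (n % Q) = F n) →
  |∑ y ∈ Ico X0 (X0 + X), F y - (X : ℝ) / Q * ∑ y ∈ range Q, F y| ≤ 2 * ∑ y ∈ range Q, |F y| ∧
  ((∀ n, 0 ≤ F n) →
    |∑ y ∈ Ico X0 (X0 + X), F y - (X : ℝ) / Q * ∑ y ∈ range Q, F y| ≤ ∑ y ∈ range Q, F y) ∧
  (∀ r : ℕ, ∑ y ∈ range Q, F (y + r) = ∑ y ∈ range Q, F y)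

/-- CNT: counting in an interval. -/
def St_CNT : Prop := ∀ (a : ℕ → ℕ) (P T : Finset ℕ) (z X0 X : ℕ), Adm a P z → T ⊆ P →
  |∑ y ∈ Ico X0 (X0 + X), ind a T y - X * den a T| ≤ ∏ q ∈ T, (a q : ℝ)

/-- PAIR: the covariance over a full period. -/
def St_PAIR : Prop := ∀ (a : ℕ → ℕ) (P T T' : Finset ℕ) (z r s : ℕ), Adm a P z → T ⊆ P → T' ⊆ P →
  ∑ y ∈ range (∏ q ∈ T ∪ T', q ^ 2), (ind a T (y + r) - den a T) * (ind a T' (y + s) - den a T')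
    = (∏ q ∈ T ∪ T', (q : ℝ) ^ 2) *
      (den a (T \ T') * den a (T' \ T) * (kap a (T ∩ T') r s - den a (T ∩ T') ^ 2))

/-- PABS: the sum of the absolute values over a full period. -/
def St_PABS : Prop := ∀ (a : ℕ → ℕ) (P T T' : Finset ℕ) (z r s : ℕ), Adm a P z → T ⊆ P → T' ⊆ P →
  ∑ y ∈ range (∏ q ∈ T ∪ T', q ^ 2), |(ind a T (y + r) - den a T) * (ind a T' (y + s) - den a T')|
    ≤ 4 * ((∏ q ∈ T, (a q : ℝ)) * ∏ q ∈ T', (a q : ℝ))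

/-- TGS: the common part, small moduli. -/
def St_TGS : Prop := ∀ (a : ℕ → ℕ) (P g : Finset ℕ) (z H : ℕ), Adm a P z → g ⊆ P →
  |∑ r ∈ range H, ∑ s ∈ range H, (kap a g r s - den a g ^ 2)| ≤ H * (∏ q ∈ g, (q : ℝ)) ^ 2

/-- NMAX: a window contains few elements of the set, for large moduli. -/
def St_NMAX : Prop := ∀ (a : ℕ → ℕ) (P g : Finset ℕ) (z G H y : ℕ), Adm a P z → g ⊆ P → 1 ≤ G →
  G < ∏ q ∈ g, q →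
  ∑ r ∈ range H, ind a g (y + r) ≤ 2 ^ g.card * (2 * (H : ℝ) / G + 2 * z + (G : ℝ) ^ 2)

/-- TGL: the common part, large moduli. -/
def St_TGL : Prop := ∀ (a : ℕ → ℕ) (P g : Finset ℕ) (z G H : ℕ), Adm a P z → g ⊆ P → 1 ≤ G →
  G < ∏ q ∈ g, q →
  |∑ r ∈ range H, ∑ s ∈ range H, (kap a g r s - den a g ^ 2)| ≤
    (∏ q ∈ g, 4 / (q : ℝ)) * (H * (3 * (H : ℝ) / G + 2 * z + (G : ℝ) ^ 2))

/-- SUMG: the sum over all common parts. -/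
def St_SUMG : Prop := ∀ (a : ℕ → ℕ) (P : Finset ℕ) (z G H : ℕ), Adm a P z → 1 ≤ G →
  ∑ g ∈ P.powerset, |∑ r ∈ range H, ∑ s ∈ range H, (kap a g r s - den a g ^ 2)| ≤
    (∏ q ∈ P, (1 + 4 / (q : ℝ))) * (H * (3 * (H : ℝ) / G + 2 * z + 2 * (G : ℝ) ^ 3))

/-- VL: the variance lemma. -/
def St_VL : Prop := ∀ (a : ℕ → ℕ) (P : Finset ℕ) (z G H X0 X : ℕ) (D : Finset (Finset ℕ))
  (lam : Finset ℕ → ℝ), Adm a P z → (∀ T ∈ D, T ⊆ P) → 1 ≤ G → (∀ T, |lam T| ≤ 1) →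
  ∑ y ∈ Ico X0 (X0 + X), (∑ r ∈ range H, ∑ T ∈ D, lam T * (ind a T (y + r) - den a T)) ^ 2 ≤
    X * (∏ q ∈ P, (1 + 4 / (q : ℝ))) ^ 3 * (H * (3 * (H : ℝ) / G + 2 * z + 2 * (G : ℝ) ^ 3)) +
      8 * (H : ℝ) ^ 2 * (∑ T ∈ D, ∏ q ∈ T, (a q : ℝ)) ^ 2

/-- VA: the variance lemma, asymptotic form, for an arbitrary set of windows. -/
def St_VA : Prop := ∀ h1 h2 η : ℝ, 0 < h2 → h2 < h1 → h1 ≤ 1 / 2 → 0 < η →
  ∃ δ : ℝ, 0 < δ ∧ ∃ X1 : ℕ, ∀ X : ℕ, X1 ≤ X →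
  ∀ (a : ℕ → ℕ) (P : Finset ℕ) (z H X0 : ℕ) (D : Finset (Finset ℕ)) (lam : Finset ℕ → ℝ)
    (Y : Finset ℕ), Adm a P z → (∀ T ∈ D, T ⊆ P) → (∀ T, |lam T| ≤ 1) →
    (z : ℝ) ≤ (X : ℝ) ^ h2 → (X : ℝ) ^ h1 ≤ H →
    (∑ T ∈ D, ∏ q ∈ T, (a q : ℝ)) ≤ (X : ℝ) ^ (1 / 2 - η) → Y ⊆ Ico X0 (X0 + X) →
    |∑ y ∈ Y, ∑ r ∈ range H, ∑ T ∈ D, lam T * (ind a T (y + r) - den a T)| ≤
      (X : ℝ) ^ (1 - δ) * H

/-- PROD: an upper bound for a product over primes. -/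
def St_PROD : Prop := ∃ C : ℝ, 0 < C ∧ ∀ (z : ℕ) (P : Finset ℕ), (∀ q ∈ P, q.Prime ∧ q ≤ z) →
  ∏ q ∈ P, (1 + 4 / (q : ℝ)) ≤ C * (1 + Real.log z) ^ 4

/-- MASS: Mertens. -/
def St_MASS : Prop := ∀ β α η : ℝ, 0 < β → β < α → 0 < η → ∃ X1 : ℕ, ∀ X : ℕ, X1 ≤ X →
  ∑ p ∈ (Ioc ⌊(X : ℝ) ^ β⌋₊ ⌊(X : ℝ) ^ α⌋₊).filter Nat.Prime, (1 : ℝ) / p ≤
    Real.log (α / β) + η

/-- VLOW: a lower bound for a product over primes. -/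
def St_VLOW : Prop := ∃ c : ℝ, 0 < c ∧ ∀ z : ℕ, 2 ≤ z → c / Real.log z ^ 2 ≤ V z

/-- BASE: the first step, a union bound. -/
def St_BASE : Prop := CC (1 / 4) (1 / 4)

/-- STAGE: from the exponent `α` to the exponent `α / 2`. -/
def St_STAGE : Prop := ∀ α c : ℝ, 0 < α → α ≤ 1 / 4 → 0 < c → c ≤ 1 → CC α c → CC (α / 2) (c / 4)

/-- FL2: the fundamental lemma of the sieve, from `Pool.Agent.H20R2.fLem`. -/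
def St_FL2 : Prop := ∃ B K : ℕ, 1 ≤ K ∧ FLp B K

open Classical in
/-- GAP: upper bound for the integers which are hit by `p > z` and not hit by the primes up to
`z`. -/
def St_GAP : Prop := ∀ B K : ℕ, 1 ≤ K → FLp B K → ∀ z p X : ℕ, 2 ≤ z → p.Prime → z < p →
  (((Ico X (3 * X)).filter (fun n => n % p ^ 2 < p ∧
      ∀ q ∈ primesTo z, ¬ n % q ^ 2 < q)).card : ℝ) ≤
    3 * X / p * V z + K * (1 + Real.log z) * p * (K * (z : ℝ) ^ B) ^ 2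

/-- LOW: lower bound for the number of pairs (window of the set `Y`, integer in this window) such
that the integer is not hit by the primes up to `z`. -/
def St_LOW : Prop := ∀ (B K : ℕ) (h1 h2 : ℝ), 1 ≤ K → FLp B K → 0 < h2 → h2 < h1 → h1 ≤ 1 / 2 →
  h2 * (16 * (B + 1)) ≤ 1 →
  ∃ δ : ℝ, 0 < δ ∧ ∃ X1 : ℕ, ∀ X : ℕ, X1 ≤ X → ∀ (z H : ℕ) (Y : Finset ℕ), 2 ≤ z →
    (z : ℝ) ≤ (X : ℝ) ^ h2 → (X : ℝ) ^ h1 ≤ H → H ≤ X → Y ⊆ Ico X (2 * X) →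
    1 / 2 * (Y.card * H * V z) - (X : ℝ) ^ (1 - δ) * H ≤
      ∑ y ∈ Y, ∑ r ∈ range H, (if ∀ q ∈ primesTo z, ¬ (y + r) % q ^ 2 < q then (1 : ℝ) else 0)

/-- FIN: the final step. -/
def St_FIN : Prop := ∀ (B K : ℕ) (α c : ℝ), 1 ≤ K → FLp B K → 0 < α → α * (32 * (B + 1)) ≤ 1 →
  0 < c → c ≤ 1 → CC α c →
  ∃ X1 : ℕ, ∀ X : ℕ, X1 ≤ X → ∃ n ∈ Ico X (3 * X), ∀ p : ℕ, p.Prime → p ^ 2 ≤ 3 * X →
    p ≤ n % p ^ 2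

end Pool.Agent.H817R5.EP
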