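import Mathlib
import Pool.Agent.H817R5.EP.Stubs

/-!
# Erdos problem 676 (MP_1626ca_nt): assembly
-/

set_option autoImplicit false

open Finset Filter

namespace Pool.Agent.H817R5.EP

/-- The result: for all large `X` there is `n ∈ [X, 3 X)` with `p ≤ n mod p ^ 2` for all primes `p`
with `p ^ 2 ≤ 3 X`. -/
def Main : Prop := ∃ X1 : ℕ, ∀ X : ℕ, X1 ≤ X → ∃ n ∈ Ico X (3 * X), ∀ p : ℕ, p.Prime →
  p ^ 2 ≤ 3 * X → p ≤ n % p ^ 2

theorem cc_all (hbase : St_BASE) (hstage : St_STAGE) :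
    ∀ k : ℕ, CC (1 / 4 / 2 ^ k) (1 / 4 / 4 ^ k) := by
  intro k
  induction k with
  | zero =>
    rw [pow_zero, pow_zero, div_one]
    exact hbase
  | succ k ih =>
    have h2 : (1 : ℝ) ≤ 2 ^ k := one_le_pow₀ (by norm_num)
    have h4 : (1 : ℝ) ≤ 4 ^ k := one_le_pow₀ (by norm_num)
    have h := hstage (1 / 4 / 2 ^ k) (1 / 4 / 4 ^ k) (by positivity)
      (div_le_self (by norm_num) h2) (by positivity)
      ((div_le_self (by norm_num) h4).trans (by norm_num)) ih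
    have e1 : (1 / 4 / 2 ^ k / 2 : ℝ) = 1 / 4 / 2 ^ (k + 1) := by rw [pow_succ]; ring
    have e2 : (1 / 4 / 4 ^ k / 4 : ℝ) = 1 / 4 / 4 ^ (k + 1) := by rw [pow_succ]; ring
    rw [e1, e2] at h
    exact h

theorem main_of (hbase : St_BASE) (hstage : St_STAGE) (hfl : St_FL2) (hfin : St_FIN) : Main := by
  obtain ⟨B, K, hK, hFL⟩ := hfl
  obtain ⟨k, hk⟩ := pow_unbounded_of_one_lt ((32 * ((B : ℝ) + 1))) (by norm_num : (1 : ℝ) < 2)
  have h2 : (0 : ℝ) < 2 ^ k := by positivity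
  refine hfin B K (1 / 4 / 2 ^ k) (1 / 4 / 4 ^ k) hK hFL (by positivity) ?_ (by positivity) ?_
    (cc_all hbase hstage k)
  · rw [div_mul_eq_mul_div, div_le_one h2]
    have : (0 : ℝ) ≤ 32 * ((B : ℝ) + 1) := by positivity
    linarith
  · have h4 : (1 : ℝ) ≤ 4 ^ k := one_le_pow₀ (by norm_num)
    exact (div_le_self (by norm_num) h4).trans (by norm_num)

theorem not_repr (h : Main) :
    ¬ (∀ᶠ n in atTop, ∃ a p b : ℕ, p.Prime ∧ 1 ≤ a ∧ b < p ∧ n = a * p ^ 2 + b) := by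
  intro hev
  obtain ⟨N, hN⟩ := eventually_atTop.1 hev
  obtain ⟨X1, hX1⟩ := h
  obtain ⟨n, hn, hp⟩ := hX1 (max X1 N) (le_max_left _ _)
  rw [mem_Ico] at hn
  obtain ⟨a, p, b, hpp, ha, hb, he⟩ := hN n ((le_max_right _ _).trans hn.1)
  have h1 : p ^ 2 ≤ n := by
    rw [he]
    nlinarith [Nat.zero_le b, Nat.zero_le (p ^ 2)]
  have h2 := hp p hpp (h1.trans hn.2.le)
  have h3 : n % p ^ 2 = b := by
    have h4 : b < p ^ 2 := by nlinarith [hpp.two_le]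
    rw [he, Nat.mul_comm, Nat.mul_add_mod, Nat.mod_eq_of_lt h4]
  omega

end Pool.Agent.H817R5.EP
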