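import Mathlib
import Pool.Agent.H817R5.EP.Assemble
import Pool.Agent.H793R5.EP.CRT
import Pool.Agent.H676R5.EP.PER
import Pool.Agent.H854R5.EP.CNT
import Pool.Agent.H311R5.EP.PAIR
import Pool.Agent.H609R5.EP.PABS
import Pool.Agent.H318R5.EP.TGS
import Pool.Agent.H79R5.EP.NMAX
import Pool.Agent.H577R5.EP.TGL
import Pool.Agent.H386R5.EP.SUMG
import Pool.Agent.H862R5.EP.VL
import Pool.Agent.H978R5.EP.PROD
import Pool.Agent.H134R5.EP.VA
import Pool.Agent.H329R5.EP.MASS
import Pool.Agent.H477R5.EP.VLOW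
import Pool.Agent.H184R5.EP.BASE
import Pool.Agent.H9R5.EP.GAP
import Pool.Agent.H77R5.EP.LOW

/-!
# Erdos problem 676 (MP_1626ca_nt): the lemmas without hypotheses
-/

set_option autoImplicit false

namespace Pool.Agent.H817R5.EP

theorem crt' : St_CRT := Pool.Agent.H793R5.EP.crt
theorem per' : St_PER := Pool.Agent.H676R5.EP.per
theorem cnt' : St_CNT := Pool.Agent.H854R5.EP.cnt crt' per'
theorem pair' : St_PAIR := Pool.Agent.H311R5.EP.pair crt' per'
theorem pabs' : St_PABS := Pool.Agent.H609R5.EP.pabs crt' per'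
theorem tgs' : St_TGS := Pool.Agent.H318R5.EP.tgs crt' per'
theorem nmax' : St_NMAX := Pool.Agent.H79R5.EP.nmax cnt'
theorem tgl' : St_TGL := Pool.Agent.H577R5.EP.tgl crt' per' nmax'
theorem sumg' : St_SUMG := Pool.Agent.H386R5.EP.sumg tgs' tgl'
theorem vl' : St_VL := Pool.Agent.H862R5.EP.vl per' pair' pabs' sumg'
theorem prod' : St_PROD := Pool.Agent.H978R5.EP.prod
theorem va' : St_VA := Pool.Agent.H134R5.EP.va vl' prod'
theorem mass' : St_MASS := Pool.Agent.H329R5.EP.mass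
theorem vlow' : St_VLOW := Pool.Agent.H477R5.EP.vlow
theorem base' : St_BASE := Pool.Agent.H184R5.EP.base cnt' mass'
theorem gap' : St_GAP := Pool.Agent.H9R5.EP.gap cnt'
theorem low' : St_LOW := Pool.Agent.H77R5.EP.low va'

end Pool.Agent.H817R5.EP
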